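import Pool.Agent.Q28.EQ.Defs

/-!
# Averages over finite orbits
-/

namespace Pool.Agent.Q28.EQ

open Finset

lemma avg_eq {α : Type*} {S : Set α} (hS : S.Finite) (f : α → ℝ) :
    avg S f = (∑ a ∈ hS.toFinset, f a) / (hS.toFinset.card : ℝ) := by
  unfold avg
  rw [finsum_mem_eq_finite_toFinset_sum f hS, Set.ncard_eq_toFinset_card S hS]

/-- averages over the classes of a partition -/
lemma avg_partition {α : Type*} {S : Set α} (hS : S.Finite) (hne : S.Nonempty) (cl : α → Set α)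
    (h1 : ∀ y ∈ S, cl y ⊆ S) (h2 : ∀ y ∈ S, y ∈ cl y)
    (h3 : ∀ y ∈ S, ∀ z ∈ cl y, cl z = cl y) (f : α → ℝ) (c ε : ℝ)
    (h : ∀ y ∈ S, |avg (cl y) f - c| ≤ ε) : |avg S f - c| ≤ ε := by
  classical
  set T := hS.toFinset with hT
  have hTm : ∀ y, y ∈ T ↔ y ∈ S := fun y => Set.Finite.mem_toFinset hS
  have hcf : ∀ y ∈ S, (cl y).Finite := fun y hy => hS.subset (h1 y hy)
  have hsym : ∀ y ∈ S, ∀ z ∈ S, (z ∈ cl y ↔ y ∈ cl z) := by
    intro y hy z hz
    constructor
    · intro h4; rw [h3 y hy z h4]; exact h2 y hy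
    · intro h4; rw [h3 z hz y h4]; exact h2 z hz
  have hTne : T.Nonempty := by
    obtain ⟨y, hy⟩ := hne
    exact ⟨y, (hTm y).mpr hy⟩
  have hT0 : (0 : ℝ) < T.card := by exact_mod_cast hTne.card_pos
  have key : ∑ y ∈ T, avg (cl y) f = ∑ z ∈ T, f z := by
    have e1 : ∀ y ∈ T, avg (cl y) f =
        ∑ z ∈ T, if z ∈ cl y then f z / ((cl y).ncard : ℝ) else 0 := by
      intro y hy
      have hy' := (hTm y).mp hy
      rw [avg_eq (hcf y hy'), ← Set.ncard_eq_toFinset_card (cl y) (hcf y hy'), Finset.sum_div,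
        ← Finset.sum_filter]
      refine Finset.sum_congr ?_ fun _ _ => rfl
      ext z
      rw [Set.Finite.mem_toFinset, Finset.mem_filter, hTm]
      exact ⟨fun hz => ⟨h1 y hy' hz, hz⟩, fun hz => hz.2⟩
    rw [Finset.sum_congr rfl e1, Finset.sum_comm]
    refine Finset.sum_congr rfl fun z hz => ?_
    have hz' := (hTm z).mp hz
    have e2 : ∀ y ∈ T, (if z ∈ cl y then f z / ((cl y).ncard : ℝ) else 0) =
        if y ∈ cl z then f z / ((cl z).ncard : ℝ) else 0 := by
      intro y hy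
      have hy' := (hTm y).mp hy
      by_cases h4 : z ∈ cl y
      · rw [if_pos h4, if_pos ((hsym y hy' z hz').mp h4), h3 y hy' z h4]
      · rw [if_neg h4, if_neg fun h5 => h4 ((hsym y hy' z hz').mpr h5)]
    rw [Finset.sum_congr rfl e2, ← Finset.sum_filter, Finset.sum_const, nsmul_eq_mul]
    have e3 : (T.filter fun y => y ∈ cl z) = (hcf z hz').toFinset := by
      ext y
      rw [Set.Finite.mem_toFinset, Finset.mem_filter, hTm]
      exact ⟨fun hy => hy.2, fun hy => ⟨h1 z hz' hy, hy⟩⟩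
    rw [e3, ← Set.ncard_eq_toFinset_card (cl z) (hcf z hz')]
    have e4 : ((cl z).ncard : ℝ) ≠ 0 := by
      have : 0 < (cl z).ncard := (Set.ncard_pos (hcf z hz')).mpr ⟨z, h2 z hz'⟩
      exact_mod_cast this.ne'
    field_simp
  have h5 : avg S f - c = (∑ y ∈ T, (avg (cl y) f - c)) / T.card := by
    rw [avg_eq hS, ← hT, Finset.sum_sub_distrib, key, Finset.sum_const, nsmul_eq_mul]
    field_simp
  rw [h5, abs_div, abs_of_pos hT0, div_le_iff₀ hT0]
  refine (Finset.abs_sum_le_sum_abs _ _).trans ?_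
  calc ∑ y ∈ T, |avg (cl y) f - c| ≤ ∑ _y ∈ T, ε :=
        Finset.sum_le_sum fun y hy => h y ((hTm y).mp hy)
    _ = ε * T.card := by rw [Finset.sum_const, nsmul_eq_mul, mul_comm]

/-- averages of products over boxes -/
lemma avg_box {n : ℕ} {P : Fin n → Type*} (s : ∀ j, Set (P j)) (hs : ∀ j, (s j).Finite)
    (f : ∀ j, P j → ℝ) :
    avg {z : ∀ j, P j | ∀ j, z j ∈ s j} (fun z => ∏ j, f j (z j)) = ∏ j, avg (s j) (f j) := by
  classical
  have hb : {z : ∀ j, P j | ∀ j, z j ∈ s j}.Finite := by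
    have := Set.Finite.pi' hs
    exact this
  rw [avg_eq hb]
  have e1 : hb.toFinset = Fintype.piFinset fun j => (hs j).toFinset := by
    ext z
    simp [Fintype.mem_piFinset]
  rw [e1, Fintype.card_piFinset]
  simp_rw [avg_eq (hs _)]
  rw [Finset.prod_div_distrib, Finset.prod_univ_sum]
  push_cast
  rfl

end Pool.Agent.Q28.EQ
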