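import Pool.Agent.Q28.EQ.Idx

/-!
# Galois orbits of special points on products of modular curves: definitions
-/

namespace Pool.Agent.Q28.EQ

open MeasureTheory

/-- A modular curve (or Shimura curve) with its CM points. `G` is an absolute Galois group
(`Gal(ℚbar/ℚ)` for modular curves), `GF ⊆ G` the absolute Galois group of the number field `F`. -/
structure CMCurve (G : Type) [Group G] (GF : Subgroup G) where
  /-- the complex points of the curve -/
  Y : Type
  [top : TopologicalSpace Y]
  [t2 : T2Space Y]
  [lc : LocallyCompactSpace Y]
  [sc : SecondCountableTopology Y]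
  [meas : MeasurableSpace Y]
  [borel : BorelSpace Y]
  /-- the normalised hyperbolic measure -/
  m : Measure Y
  [prob : IsProbabilityMeasure m]
  /-- the CM points -/
  P : Type
  /-- their action of the Galois group of `F` -/
  [act : MulAction GF P]
  /-- the embedding of the CM points in the complex points -/
  val : P → Y
  /-- the Galois group of the CM field `K` of the point -/
  K : P → Subgroup G
  /-- the Galois group of the ring class field of the order of the point (with conductor multiplied
  by the level of the curve) -/
  H : P → Subgroup G
  /-- the absolute value of the discriminant of the order of the point -/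
  disc : P → ℕ

attribute [instance] CMCurve.top CMCurve.t2 CMCurve.lc CMCurve.sc CMCurve.meas CMCurve.borel
  CMCurve.prob CMCurve.act

/-- The orbit of the point `x` under the subgroup `U` of `GF`. -/
def orb {G : Type} [Group G] (GF : Subgroup G) {P : Type*} [MulAction GF P] (U : Subgroup G)
    (x : P) : Set P :=
  {y | ∃ g : GF, (g : G) ∈ U ∧ g • x = y}

/-- The average of the function `f` over the (finite) set `S`. -/
noncomputable def avg {α : Type*} (S : Set α) (f : α → ℝ) : ℝ :=
  (∑ᶠ a ∈ S, f a) / S.ncard

/-- Known facts on CM points on a modular curve `Y` (complex multiplication, class field theory) and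
their equidistribution. `C ⊆ GF` is the absolute Galois group of a number field which is normal over
the base field and contains `F` and the roots of unity of order the level of `Y`.
* `dihedral`: `K` has index two, `H ⊆ K` is normal with abelian quotient, and the elements outside of
  `K` act on it by inversion (on the image of `C`): ring class fields are generalised dihedral.
* `fixed`: `H` fixes the point; `K_smul`, `H_smul`, `disc_smul`: conjugate points.
* `finite_disc`: there are only finitely many CM points with bounded discriminant.
* `genus`: the `2 ^ k`-torsion of the ring class groups is small (genus theory).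
* `duke`: equidistribution of the orbits of subgroups of small index (Duke, Iwaniec, Michel,
  Harcos and Michel, Zhang, Venkatesh; for the full group it is Duke's theorem). -/
structure CMFacts {G : Type} [Group G] {GF : Subgroup G} (C : Subgroup G) (Y : CMCurve G GF) :
    Prop where
  le : C ≤ GF
  dihedral : ∀ x, Dihedral C (Y.K x) (Y.H x)
  finite_index : ∀ x, (Y.H x).FiniteIndex
  fixed : ∀ x (g : GF), (g : G) ∈ Y.H x → g • x = x
  K_smul : ∀ (g : GF) x, Y.K (g • x) = Y.K x
  H_smul : ∀ (g : GF) x, Y.H (g • x) = Y.H x
  disc_smul : ∀ (g : GF) x, Y.disc (g • x) = Y.disc x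
  finite_disc : ∀ B : ℕ, {x | Y.disc x ≤ B}.Finite
  genus : ∀ (k : ℕ) (η : ℝ), 0 < η → ∃ B : ℕ, ∀ x, B ≤ Y.disc x →
    (torsion (Y.K x) (Y.H x) (2 ^ k) : ℝ) ≤ (Y.disc x : ℝ) ^ η
  duke : ∃ η : ℝ, 0 < η ∧ ∀ f : Y.Y → ℝ, Continuous f → HasCompactSupport f → ∀ ε : ℝ, 0 < ε →
    ∃ B : ℕ, ∀ x, B ≤ Y.disc x → ∀ U : Subgroup G, U ≤ C → U ≤ Y.K x →
      ((U ⊔ Y.H x).relIndex (Y.K x) : ℝ) ≤ (Y.disc x : ℝ) ^ η →
      |avg (orb GF U x) (fun y => f (Y.val y)) - ∫ y, f y ∂Y.m| ≤ ε

variable {G : Type} [Group G] {GF : Subgroup G} {n : ℕ}

/-- the special points of the product of the curves `Y j` -/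
abbrev Special (Y : Fin n → CMCurve G GF) : Type := ∀ j, (Y j).P

/-- The Galois orbits of the special points `x i` converge weakly to the invariant measure. -/
def Equidistributed (Y : Fin n → CMCurve G GF) (x : ℕ → Special Y) : Prop :=
  ∀ f : (∀ j, (Y j).Y) → ℝ, Continuous f → HasCompactSupport f →
    Filter.Tendsto (fun i => avg (orb GF ⊤ (x i)) fun y => f fun j => (Y j).val (y j))
      Filter.atTop (nhds (∫ y, f y ∂(Measure.pi fun j => (Y j).m)))

/-- Each CM point of each curve occurs as a coordinate only finitely often: this is the hypothesis
of the conjecture for the special subvarieties `y_j = constant`. -/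
def NoConstantCoordinate (Y : Fin n → CMCurve G GF) (x : ℕ → Special Y) : Prop :=
  ∀ j, ∀ p : (Y j).P, {i | x i j = p}.Finite

/-- The ring class field of the coordinate `j` of the special point is almost disjoint from the
compositum of the ring class fields of the other coordinates with the same CM field: the degree of
the intersection over the CM field is at most every fixed positive power of the discriminant, for
almost all members of the sequence. -/
def AlmostDisjoint (Y : Fin n → CMCurve G GF) (x : ℕ → Special Y) : Prop :=
  ∀ η : ℝ, 0 < η → ∀ᶠ i in Filter.atTop, ∀ j,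
    ((sameField (fun k => (Y k).K (x i k)) (fun k => (Y k).H (x i k)) j ⊔
      (Y j).H (x i j)).relIndex ((Y j).K (x i j)) : ℝ) ≤ ((Y j).disc (x i j) : ℝ) ^ η

end Pool.Agent.Q28.EQ
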