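import Mathlib

/-!
# Sums of products of functions of one coordinate are dense
-/

namespace Pool.Agent.Q28.EQ

open Set Topology

variable {n : ℕ} {Y : Fin n → Type} [∀ j, TopologicalSpace (Y j)] [∀ j, T2Space (Y j)]
  [∀ j, LocallyCompactSpace (Y j)]

/-- finite linear combinations of products of functions of one coordinate -/
def IsSum (p : (∀ j, Y j) → ℝ) : Prop :=
  ∃ (ι : Type) (_ : Fintype ι) (c : ι → ℝ) (g : ι → ∀ j, C(Y j, ℝ)),
    ∀ y, p y = ∑ a, c a * ∏ j, g a j (y j)

omit [∀ j, T2Space (Y j)] [∀ j, LocallyCompactSpace (Y j)] in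
lemma IsSum.add {p q : (∀ j, Y j) → ℝ} (hp : IsSum p) (hq : IsSum q) :
    IsSum fun y => p y + q y := by
  obtain ⟨ι, _, c, g, h⟩ := hp
  obtain ⟨κ, _, d, k, h'⟩ := hq
  refine ⟨ι ⊕ κ, inferInstance, Sum.elim c d, Sum.elim g k, fun y => ?_⟩
  rw [Fintype.sum_sum_type]
  change p y + q y = _
  rw [h, h']
  rfl

omit [∀ j, T2Space (Y j)] [∀ j, LocallyCompactSpace (Y j)] in
lemma IsSum.mul {p q : (∀ j, Y j) → ℝ} (hp : IsSum p) (hq : IsSum q) :
    IsSum fun y => p y * q y := by
  obtain ⟨ι, _, c, g, h⟩ := hp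
  obtain ⟨κ, _, d, k, h'⟩ := hq
  refine ⟨ι × κ, inferInstance, fun a => c a.1 * d a.2, fun a j => g a.1 j * k a.2 j, fun y => ?_⟩
  rw [Fintype.sum_prod_type]
  change p y * q y = _
  rw [h, h', Finset.sum_mul]
  refine Finset.sum_congr rfl fun a _ => ?_
  rw [Finset.mul_sum]
  refine Finset.sum_congr rfl fun b _ => ?_
  simp only [ContinuousMap.mul_apply]
  rw [Finset.prod_mul_distrib]; ring

omit [∀ j, T2Space (Y j)] [∀ j, LocallyCompactSpace (Y j)] in
lemma IsSum.const (r : ℝ) : IsSum fun _ : (∀ j, Y j) => r :=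
  ⟨Unit, inferInstance, fun _ => r, fun _ _ => 1, fun y => by simp⟩

omit [∀ j, T2Space (Y j)] [∀ j, LocallyCompactSpace (Y j)] in
lemma IsSum.coord (j : Fin n) (g : C(Y j, ℝ)) : IsSum fun y : (∀ j, Y j) => g (y j) := by
  classical
  refine ⟨Unit, inferInstance, fun _ => 1, fun _ => Function.update (fun _ => 1) j g, fun y => ?_⟩
  simp only [Finset.univ_unique, PUnit.default_eq_unit, one_mul, Finset.sum_singleton]
  rw [Finset.prod_eq_single j]
  · simp
  · intro b _ hb
    rw [Function.update_of_ne hb]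
    simp
  · intro h; exact absurd (Finset.mem_univ j) h

/-- approximation by products of functions with compact support -/
lemma dens (f : (∀ j, Y j) → ℝ) (hf : Continuous f) (hc : HasCompactSupport f) (ε : ℝ)
    (hε : 0 < ε) :
    ∃ (ι : Type) (_ : Fintype ι) (c : ι → ℝ) (g : ι → ∀ j, Y j → ℝ),
      (∀ a j, Continuous (g a j) ∧ HasCompactSupport (g a j)) ∧
      ∀ y, |f y - ∑ a, c a * ∏ j, g a j (y j)| ≤ ε := by
  classical
  have hK : ∀ j, IsCompact ((fun y : (∀ j, Y j) => y j) '' tsupport f) := fun j =>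
    hc.isCompact.image (continuous_apply j)
  choose χ h1 h2 h3 h4 using fun j => exists_continuous_one_zero_of_isCompact (hK j)
    (isClosed_empty) (disjoint_empty _)
  let A : Subalgebra ℝ C(∀ j, Y j, ℝ) :=
    { carrier := {p | IsSum p}
      mul_mem' := fun hp hq => hp.mul hq
      add_mem' := fun hp hq => hp.add hq
      algebraMap_mem' := fun r => IsSum.const r }
  have hA : A.SeparatesPoints := by
    intro x y hxy
    obtain ⟨j, hj⟩ := Function.ne_iff.mp hxy
    obtain ⟨g, g1, g2, -⟩ := exists_continuous_zero_one_of_isCompact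
      (isCompact_singleton (x := x j)) (isClosed_singleton (x := y j))
      (by rw [Set.disjoint_singleton]; exact hj)
    refine ⟨fun y => g (y j), ⟨⟨fun y => g (y j), by fun_prop⟩, IsSum.coord j g, rfl⟩, ?_⟩
    have e1 := g1 (mem_singleton (x j))
    have e2 := g2 (mem_singleton (y j))
    simp only [Pi.zero_apply, Pi.one_apply] at e1 e2
    simp only
    rw [e1, e2]
    norm_num
  have hL : IsCompact (Set.pi univ fun j => tsupport (χ j)) :=
    isCompact_univ_pi fun j => (h3 j).isCompact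
  obtain ⟨p, hp, hp2⟩ := ContinuousMap.exists_mem_subalgebra_near_continuous_of_isCompact_of_separatesPoints hA
    ⟨f, hf⟩ hL hε
  obtain ⟨ι, i1, c, g, hg⟩ := hp
  refine ⟨ι, i1, c, fun a j y => g a j y * χ j y, fun a j => ⟨by fun_prop, (h3 j).mul_left⟩,
    fun y => ?_⟩
  have e1 : ∑ a, c a * ∏ j, (g a j (y j) * χ j (y j)) = (∏ j, χ j (y j)) * p y := by
    rw [hg y, Finset.mul_sum]
    refine Finset.sum_congr rfl fun a _ => ?_
    rw [Finset.prod_mul_distrib]; ring
  have e2 : f y = (∏ j, χ j (y j)) * f y := by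
    by_cases h : f y = 0
    · rw [h, mul_zero]
    · have : ∀ j, χ j (y j) = 1 := fun j =>
        h1 j ⟨y, subset_tsupport f h, rfl⟩
      simp [this]
  have hχ0 : 0 ≤ ∏ j, χ j (y j) := Finset.prod_nonneg fun j _ => (h4 j (y j)).1
  have hχ1 : ∏ j, χ j (y j) ≤ 1 :=
    Finset.prod_le_one (fun j _ => (h4 j (y j)).1) fun j _ => (h4 j (y j)).2
  rw [e1]
  conv_lhs => rw [e2]
  rw [← mul_sub, abs_mul, abs_of_nonneg hχ0]
  by_cases h : ∏ j, χ j (y j) = 0
  · rw [h, zero_mul]; exact hε.le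
  · have hy : y ∈ Set.pi univ fun j => tsupport (χ j) := by
      intro j _
      apply subset_tsupport
      intro h0
      exact h (Finset.prod_eq_zero (Finset.mem_univ j) h0)
    have h5 := hp2 y hy
    rw [Real.norm_eq_abs, abs_sub_comm] at h5
    calc (∏ j, χ j (y j)) * |f y - p y| ≤ 1 * ε :=
          mul_le_mul hχ1 h5.le (abs_nonneg _) zero_le_one
      _ = ε := one_mul ε

end Pool.Agent.Q28.EQ
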