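import Mathlib

/-!
# Group theory for Galois orbits of special points on products

Subgroups `K k` of index two (Galois groups of imaginary quadratic fields), normal subgroups
`H k ≤ K k` with abelian quotients (ring class fields), on which the elements outside of `K k` act by
inversion (on a normal subgroup `C`).
-/

namespace Pool.Agent.Q28.EQ

section Comm

variable {G : Type*} [Group G] {ι : Type*}

/-- the hypotheses on one field -/
structure Dihedral (C K H : Subgroup G) : Prop where
  index_two : K.index = 2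
  normal : H.Normal
  le : H ≤ K
  abelian : ∀ σ ∈ K, ∀ τ ∈ K, σ * τ * σ⁻¹ * τ⁻¹ ∈ H
  invert : ∀ g, g ∉ K → ∀ σ ∈ K, σ ∈ C → g * σ * g⁻¹ * σ ∈ H

lemma exists_in_not_in {K K' : Subgroup G} (h : K.index = 2) (h' : K'.index = 2) (hne : K ≠ K') :
    ∃ g, g ∈ K' ∧ g ∉ K := by
  by_contra hc
  push Not at hc
  have h1 : K' ≤ K := fun g hg => hc g hg
  have h2 := Subgroup.relIndex_mul_index h1
  rw [h, h'] at h2
  have h3 : K'.relIndex K = 1 := by omega
  rw [Subgroup.relIndex_eq_one] at h3
  exact hne (le_antisymm h3 h1)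

/-- the iterated commutators -/
lemma iterated (C : Subgroup G) (hC : C.Normal) (K H : ι → Subgroup G)
    (hD : ∀ k, Dihedral C (K k) (H k)) (j : ι) (τ : G) (hτC : τ ∈ C) (hτK : ∀ k, τ ∈ K k)
    (T : Finset ι) (hT : ∀ k ∈ T, K k ≠ K j) :
    ∃ ρ : G, ρ ∈ C ∧ (∀ k, ρ ∈ K k) ∧ (∀ k ∈ T, ρ ∈ H k) ∧ (∀ l, τ ∈ H l → ρ ∈ H l) ∧
      (haveI := (hD j).normal
       (QuotientGroup.mk' (H j) ρ) = (QuotientGroup.mk' (H j) τ) ^ ((-2 : ℤ) ^ T.card)) := by
  classical
  haveI := (hD j).normal
  induction T using Finset.induction_on with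
  | empty => exact ⟨τ, hτC, hτK, by simp, fun l hl => hl, by simp⟩
  | insert k T hk ih =>
    obtain ⟨ρ, h1, h2, h3, h4, h5⟩ := ih fun l hl => hT l (Finset.mem_insert_of_mem hl)
    obtain ⟨g, hg1, hg2⟩ := exists_in_not_in (hD j).index_two (hD k).index_two
      (hT k (Finset.mem_insert_self k T)).symm
    have hKn : ∀ l, (K l).Normal := fun l => Subgroup.normal_of_index_eq_two (hD l).index_two
    refine ⟨g * ρ * g⁻¹ * ρ⁻¹, C.mul_mem (hC.conj_mem _ h1 g) (C.inv_mem h1), fun l =>
      (K l).mul_mem ((hKn l).conj_mem _ (h2 l) g) ((K l).inv_mem (h2 l)), fun l hl => ?_,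
      fun l hl => (H l).mul_mem ((hD l).normal.conj_mem _ (h4 l hl) g) ((H l).inv_mem (h4 l hl)),
      ?_⟩
    · rcases Finset.mem_insert.mp hl with rfl | hl
      · exact (hD l).abelian g hg1 ρ (h2 l)
      · exact (H l).mul_mem ((hD l).normal.conj_mem _ (h3 l hl) g) ((H l).inv_mem (h3 l hl))
    · have h6 := (hD j).invert g hg2 ρ (h2 j) h1
      have h7 : QuotientGroup.mk' (H j) (g * ρ * g⁻¹) = (QuotientGroup.mk' (H j) ρ)⁻¹ := by
        have : QuotientGroup.mk' (H j) (g * ρ * g⁻¹ * ρ) = 1 :=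
          (QuotientGroup.eq_one_iff _).mpr h6
        rw [map_mul] at this
        exact eq_inv_of_mul_eq_one_left this
      have h8 : ∀ a : G ⧸ H j, a⁻¹ * a⁻¹ = a ^ (-2 : ℤ) := fun a => by group
      rw [map_mul, h7, map_inv, h5, Finset.card_insert_of_notMem hk, pow_succ, zpow_mul, h8]

end Comm

section Index

/-- in a finite commutative group: a subgroup which contains all `q`-th powers of a subgroup `W`
has index at most the number of the elements killed by `q` -/
lemma relIndex_le_torsion {A : Type*} [Group A] [Finite A] (hc : ∀ a b : A, a * b = b * a)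
    (M W : Subgroup A) (q : ℕ)
    (h : ∀ w ∈ W, w ^ q ∈ M) : M.relIndex W ≤ Nat.card {a : A // a ^ q = 1} := by
  let f : W →* W :=
    { toFun := fun w => w ^ q
      map_one' := one_pow q
      map_mul' := fun a b => Commute.mul_pow (Subtype.ext (hc a b)) q }
  have h1 : f.range ≤ M.subgroupOf W := by
    rintro _ ⟨w, rfl⟩
    exact h w w.2
  have h2 : (M.subgroupOf W).index ≤ f.range.index :=
    Nat.le_of_dvd (Nat.pos_of_ne_zero Subgroup.index_ne_zero_of_finite)
      (Subgroup.index_dvd_of_le h1)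
  have h3 : f.range.index = Nat.card f.ker := by
    have h4 := f.range.card_mul_index
    have h5 := f.ker.card_mul_index
    rw [Subgroup.index_ker] at h5
    have h6 : 0 < Nat.card f.range := Nat.card_pos
    have h7 : Nat.card f.range * f.range.index = Nat.card f.range * Nat.card f.ker := by
      rw [h4, ← h5, mul_comm]
    exact Nat.eq_of_mul_eq_mul_left h6 h7
  rw [Subgroup.relIndex]
  refine h2.trans (h3.le.trans ?_)
  refine Nat.card_le_card_of_injective
    (fun x : f.ker => (⟨((x : W) : A), ?_⟩ : {a : A // a ^ q = 1})) ?_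
  · have := (MonoidHom.mem_ker).mp x.2
    have h8 := congrArg (Subtype.val : W → A) this
    simpa [f] using h8
  · intro x y hxy
    have := congrArg Subtype.val hxy
    exact Subtype.ext (Subtype.ext this)

variable {G : Type*} [Group G]

/-- the number of the cosets of `H` in `K` consisting of elements whose `q`-th power is in `H`: the
`q`-torsion of `K / H` -/
noncomputable def torsion (K H : Subgroup G) (q : ℕ) : ℕ :=
  Nat.card {a : K ⧸ H.subgroupOf K // ∀ g : K, QuotientGroup.mk g = a → (g : G) ^ q ∈ H}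

/-- the same for a group with a normal subgroup -/
lemma relIndex_le_torsion' (K H M W : Subgroup G) (hH : H.Normal) (hHK : H ≤ K) (hWK : W ≤ K)
    (hMW : M ≤ W) (hfin : H.FiniteIndex)
    (hab : ∀ σ ∈ K, ∀ τ ∈ K, σ * τ * σ⁻¹ * τ⁻¹ ∈ H) (q : ℕ)
    (h : ∀ w ∈ W, w ^ q ∈ M ⊔ H) :
    (M ⊔ H).relIndex (W ⊔ H) ≤ torsion K H q := by
  haveI : (H.subgroupOf K).Normal := hH.subgroupOf K
  haveI : Finite (K ⧸ H.subgroupOf K) := by
    have h1 : (H.subgroupOf K).FiniteIndex := inferInstance
    exact Subgroup.finite_quotient_of_finiteIndex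
  have hc : ∀ a b : K ⧸ H.subgroupOf K, a * b = b * a := by
    intro a b
    obtain ⟨a, rfl⟩ := QuotientGroup.mk_surjective a
    obtain ⟨b, rfl⟩ := QuotientGroup.mk_surjective b
    rw [← QuotientGroup.mk_mul, ← QuotientGroup.mk_mul, QuotientGroup.eq]
    rw [Subgroup.mem_subgroupOf]
    have h1 := hab (b : G)⁻¹ (K.inv_mem b.2) (a : G)⁻¹ (K.inv_mem a.2)
    simpa [mul_assoc] using h1
  let π : K →* K ⧸ H.subgroupOf K := QuotientGroup.mk' (H.subgroupOf K)
  have hker : π.ker = H.subgroupOf K := QuotientGroup.ker_mk' _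
  have hMK : M ≤ K := hMW.trans hWK
  have h1 := relIndex_le_torsion hc ((M.subgroupOf K).map π) ((W.subgroupOf K).map π) q (by
    rintro _ ⟨w, hw, rfl⟩
    have h2 : (w : G) ^ q ∈ M ⊔ H := h w hw
    have h3 : w ^ q ∈ (M ⊔ H).subgroupOf K := h2
    rw [Subgroup.subgroupOf_sup hMK hHK] at h3
    rw [← map_pow]
    obtain ⟨x, hx, y, hy, hxy⟩ := Subgroup.mem_sup_of_normal_right.mp h3
    refine ⟨x, hx, ?_⟩
    rw [← hxy, map_mul]
    have : π y = 1 := by rw [← MonoidHom.mem_ker, hker]; exact hy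
    rw [this, mul_one])
  rw [Subgroup.relIndex_map_map, hker, ← Subgroup.subgroupOf_sup hMK hHK,
    ← Subgroup.subgroupOf_sup hWK hHK, Subgroup.relIndex_subgroupOf (sup_le hWK hHK)] at h1
  refine h1.trans (le_of_eq ?_)
  unfold torsion
  refine Nat.card_congr (Equiv.subtypeEquivRight fun a => ?_)
  constructor
  · rintro h2 g rfl
    rw [← QuotientGroup.mk_pow, QuotientGroup.eq_one_iff, Subgroup.mem_subgroupOf] at h2
    simpa using h2
  · intro h2
    obtain ⟨g, rfl⟩ := QuotientGroup.mk_surjective a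
    rw [← QuotientGroup.mk_pow, QuotientGroup.eq_one_iff, Subgroup.mem_subgroupOf]
    simpa using h2 g rfl

end Index

end Pool.Agent.Q28.EQ
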