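import Pool.Agent.Q28.EQ.Grp

/-!
# The index of the subgroup which moves only one coordinate
-/

namespace Pool.Agent.Q28.EQ

open Finset

variable {G : Type*} [Group G] {ι : Type*} [Fintype ι]

/-- the elements which fix all CM points of the coordinates `k ≠ j` -/
def moveOnly (C : Subgroup G) (K H : ι → Subgroup G) (j : ι) : Subgroup G :=
  (C ⊓ ⨅ k, K k) ⊓ ⨅ k, ⨅ _ : k ≠ j, H k

/-- the elements of `K j` which fix the CM points of the other coordinates with the same field -/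
def sameField (K H : ι → Subgroup G) (j : ι) : Subgroup G :=
  K j ⊓ ⨅ k, ⨅ _ : k ≠ j ∧ K k = K j, H k

lemma mem_moveOnly {C : Subgroup G} {K H : ι → Subgroup G} {j : ι} {g : G} :
    g ∈ moveOnly C K H j ↔ (g ∈ C ∧ ∀ k, g ∈ K k) ∧ ∀ k, k ≠ j → g ∈ H k := by
  simp [moveOnly, Subgroup.mem_inf, Subgroup.mem_iInf]

lemma mem_sameField {K H : ι → Subgroup G} {j : ι} {g : G} :
    g ∈ sameField K H j ↔ g ∈ K j ∧ ∀ k, k ≠ j → K k = K j → g ∈ H k := by
  simp [sameField, Subgroup.mem_inf, Subgroup.mem_iInf]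

lemma normal_iInf {κ : Sort*} {f : κ → Subgroup G} (h : ∀ i, (f i).Normal) : (⨅ i, f i).Normal :=
  ⟨fun n hn g => by
    rw [Subgroup.mem_iInf] at hn ⊢
    exact fun i => (h i).conj_mem n (hn i) g⟩

lemma index_inf_pow (C : Subgroup G) (K : ι → Subgroup G) (hC : C.index ≠ 0)
    (hK : ∀ k, (K k).index = 2) :
    (C ⊓ ⨅ k, K k).index ≠ 0 ∧ (C ⊓ ⨅ k, K k).index ≤ C.index * 2 ^ Fintype.card ι := by
  classical
  have h1 : ∀ T : Finset ι, (⨅ k ∈ T, K k).index ≠ 0 ∧ (⨅ k ∈ T, K k).index ≤ 2 ^ T.card := by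
    intro T
    induction T using Finset.induction_on with
    | empty => simp
    | insert k T hk ih =>
      rw [Finset.iInf_insert]
      refine ⟨Subgroup.index_inf_ne_zero (by rw [hK k]; norm_num) ih.1, ?_⟩
      refine (Subgroup.index_inf_le).trans ?_
      rw [hK k, Finset.card_insert_of_notMem hk, pow_succ, mul_comm]
      exact Nat.mul_le_mul_right 2 ih.2
  have h2 := h1 Finset.univ
  simp only [Finset.mem_univ, iInf_pos, Finset.card_univ] at h2
  refine ⟨Subgroup.index_inf_ne_zero hC h2.1, (Subgroup.index_inf_le).trans ?_⟩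
  exact Nat.mul_le_mul_left _ h2.2

lemma pow_mem_moveOnly (C : Subgroup G) (hC : C.Normal) (K H : ι → Subgroup G)
    (hD : ∀ k, Dihedral C (K k) (H k)) (j : ι) (w : G) (h1 : w ∈ sameField K H j)
    (h2 : w ∈ C ⊓ ⨅ k, K k) : w ^ (2 ^ Fintype.card ι) ∈ moveOnly C K H j ⊔ H j := by
  classical
  haveI := (hD j).normal
  obtain ⟨h1a, h1b⟩ := mem_sameField.mp h1
  rw [Subgroup.mem_inf, Subgroup.mem_iInf] at h2
  set T : Finset ι := Finset.univ.filter fun k => K k ≠ K j with hT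
  obtain ⟨ρ, a1, a2, a3, a4, a5⟩ := iterated C hC K H hD j w h2.1 h2.2 T
    (fun k hk => (Finset.mem_filter.mp hk).2)
  have hρ : ρ ∈ moveOnly C K H j := by
    rw [mem_moveOnly]
    refine ⟨⟨a1, a2⟩, fun k hk => ?_⟩
    by_cases h : K k = K j
    · exact a4 k (h1b k hk h)
    · exact a3 k (Finset.mem_filter.mpr ⟨Finset.mem_univ _, h⟩)
  have hcard : T.card ≤ Fintype.card ι := Finset.card_le_univ T
  obtain ⟨s, hs⟩ : ∃ s : ℤ, (-2 : ℤ) ^ T.card * s = 2 ^ Fintype.card ι := by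
    refine ⟨(-1) ^ T.card * 2 ^ (Fintype.card ι - T.card), ?_⟩
    have e1 : (-2 : ℤ) ^ T.card = (-1) ^ T.card * 2 ^ T.card := by rw [← mul_pow]; norm_num
    rw [e1]
    have e2 : ((-1 : ℤ) ^ T.card) * ((-1) ^ T.card) = 1 := by
      rw [← mul_pow]; norm_num
    calc (-1 : ℤ) ^ T.card * 2 ^ T.card * ((-1) ^ T.card * 2 ^ (Fintype.card ι - T.card))
        = ((-1 : ℤ) ^ T.card * (-1) ^ T.card) * (2 ^ T.card * 2 ^ (Fintype.card ι - T.card)) := by
          ring
      _ = 2 ^ Fintype.card ι := by rw [e2, one_mul, ← pow_add, Nat.add_sub_cancel' hcard]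
  have h6 : QuotientGroup.mk' (H j) (w ^ (2 ^ Fintype.card ι)) =
      QuotientGroup.mk' (H j) (ρ ^ s) := by
    rw [map_zpow, a5, ← zpow_mul, hs, map_pow, ← zpow_natCast]
    push_cast
    rfl
  have h7 : (ρ ^ s)⁻¹ * w ^ (2 ^ Fintype.card ι) ∈ H j := by
    rw [← QuotientGroup.eq]
    exact h6.symm
  have h8 : w ^ (2 ^ Fintype.card ι) = ρ ^ s * ((ρ ^ s)⁻¹ * w ^ (2 ^ Fintype.card ι)) := by
    group
  rw [h8]
  exact Subgroup.mul_mem_sup (Subgroup.zpow_mem _ hρ s) h7

/-- the index of the group moving only the coordinate `j` -/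
lemma index_bound (C : Subgroup G) (hC : C.Normal) (hCi : C.index ≠ 0) (K H : ι → Subgroup G)
    (hD : ∀ k, Dihedral C (K k) (H k)) (j : ι) (hfin : (H j).FiniteIndex) :
    (moveOnly C K H j ⊔ H j).relIndex (K j) ≤
      torsion (K j) (H j) (2 ^ Fintype.card ι) * (C.index * 2 ^ Fintype.card ι) * (sameField K H j ⊔ H j).relIndex (K j) := by
  haveI := (hD j).normal
  have hKn : ∀ k, (K k).Normal := fun k => Subgroup.normal_of_index_eq_two (hD k).index_two
  have hHn : ∀ k, (H k).Normal := fun k => (hD k).normal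
  set N : Subgroup G := C ⊓ ⨅ k, K k with hN
  set R := sameField K H j with hR
  set M := moveOnly C K H j with hM
  have hRn : R.Normal := by
    rw [hR]; unfold sameField
    haveI := hKn j
    haveI : (⨅ k, ⨅ _ : k ≠ j ∧ K k = K j, H k).Normal :=
      normal_iInf fun k => normal_iInf fun _ => hHn k
    exact Subgroup.normal_inf_normal _ _
  have hNn : N.Normal := by
    haveI : (⨅ k, K k).Normal := normal_iInf hKn
    exact Subgroup.normal_inf_normal _ _
  have hRK : R ≤ K j := inf_le_left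
  have hWn : (R ⊓ N).Normal := Subgroup.normal_inf_normal _ _
  have hMW : M ≤ R ⊓ N := by
    intro g hg
    obtain ⟨h1, h2⟩ := mem_moveOnly.mp hg
    refine Subgroup.mem_inf.mpr ⟨mem_sameField.mpr ⟨h1.2 j, fun k hk _ => h2 k hk⟩, ?_⟩
    rw [hN, Subgroup.mem_inf, Subgroup.mem_iInf]
    exact h1
  have i1 := Subgroup.relIndex_mul_relIndex (M ⊔ H j) (R ⊓ N ⊔ H j) (K j)
    (sup_le_sup_right hMW _) (sup_le (inf_le_left.trans hRK) (hD j).le)
  have i2 := Subgroup.relIndex_mul_relIndex (R ⊓ N ⊔ H j) (R ⊔ H j) (K j)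
    (sup_le_sup_right inf_le_left _) (sup_le hRK (hD j).le)
  rw [← i1, ← i2, ← mul_assoc]
  have hNi := index_inf_pow C K hCi fun k => (hD k).index_two
  have j1 : (M ⊔ H j).relIndex (R ⊓ N ⊔ H j) ≤
      torsion (K j) (H j) (2 ^ Fintype.card ι) :=
    relIndex_le_torsion' (K j) (H j) M (R ⊓ N) (hHn j) (hD j).le (inf_le_left.trans hRK) hMW hfin
      (hD j).abelian _ fun w hw => pow_mem_moveOnly C hC K H hD j w hw.1 hw.2
  have j2 : (R ⊓ N ⊔ H j).relIndex (R ⊔ H j) ≤ C.index * 2 ^ Fintype.card ι := by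
    haveI : (R ⊓ N ⊔ H j).Normal := by
      haveI := hHn j
      exact Subgroup.sup_normal _ _
    have e1 : R ⊔ H j = R ⊔ (R ⊓ N ⊔ H j) := by
      apply le_antisymm
      · exact sup_le le_sup_left (le_sup_right.trans le_sup_right)
      · exact sup_le le_sup_left (sup_le_sup_right inf_le_left _)
    rw [e1, Subgroup.relIndex_sup_right]
    have h1 : (R ⊓ N).relIndex R ≤ C.index * 2 ^ Fintype.card ι := by
      rw [Subgroup.inf_relIndex_left]
      refine (Nat.le_of_dvd (Nat.pos_of_ne_zero hNi.1) ?_).trans hNi.2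
      exact Subgroup.relIndex_dvd_index_of_normal N R
    have h2 : (R ⊓ N).relIndex R ≠ 0 := by
      rw [Subgroup.inf_relIndex_left]
      intro h0
      have := Subgroup.relIndex_dvd_index_of_normal N R
      rw [h0] at this
      exact hNi.1 (zero_dvd_iff.mp this)
    exact (Subgroup.relIndex_le_of_le_left le_sup_left h2).trans h1
  exact Nat.mul_le_mul_right _ (Nat.mul_le_mul j1 j2)

end Pool.Agent.Q28.EQ
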