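import Pool.Agent.Q28.EQ.Avg
import Pool.Agent.Q28.EQ.Dens

/-!
# Equidistribution of Galois orbits of special points on products of modular curves
-/

namespace Pool.Agent.Q28.EQ

open MeasureTheory Filter Topology

variable {G : Type} [Group G] {GF : Subgroup G}

lemma mem_orb {P : Type*} [MulAction GF P] {U : Subgroup G} {x y : P} :
    y ∈ orb GF U x ↔ ∃ g : GF, (g : G) ∈ U ∧ g • x = y := Iff.rfl

lemma self_mem_orb {P : Type*} [MulAction GF P] (U : Subgroup G) (x : P) : x ∈ orb GF U x :=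
  ⟨1, U.one_mem, one_smul _ x⟩

lemma orb_eq {P : Type*} [MulAction GF P] {U : Subgroup G} {x y : P} (h : y ∈ orb GF U x) :
    orb GF U y = orb GF U x := by
  obtain ⟨g, hg, rfl⟩ := h
  ext z
  constructor
  · rintro ⟨g', hg', rfl⟩
    exact ⟨g' * g, U.mul_mem hg' hg, mul_smul _ _ _⟩
  · rintro ⟨g', hg', rfl⟩
    refine ⟨g' * g⁻¹, U.mul_mem hg' (by simpa using U.inv_mem hg), ?_⟩
    rw [smul_smul, inv_mul_cancel_right]

/-- orbits are finite if a subgroup of finite index fixes the point -/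
lemma orb_finite {P : Type*} [MulAction GF P] (V : Subgroup G) (hV : V.FiniteIndex) (x : P)
    (hfix : ∀ g : GF, (g : G) ∈ V → g • x = x) (U : Subgroup G) : (orb GF U x).Finite := by
  have h1 : (V.subgroupOf GF) ≤ MulAction.stabilizer GF x := fun g hg => hfix g hg
  have h2 : (V.subgroupOf GF).FiniteIndex := inferInstance
  have h3 : (MulAction.stabilizer GF x).FiniteIndex := Subgroup.finiteIndex_of_le h1
  have h4 : Finite (GF ⧸ MulAction.stabilizer GF x) := Subgroup.finite_quotient_of_finiteIndex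
  have h5 : (MulAction.orbit GF x).Finite := by
    have : Finite (MulAction.orbit GF x) :=
      Finite.of_equiv _ (MulAction.orbitEquivQuotientStabilizer GF x).symm
    exact Set.toFinite _
  refine h5.subset ?_
  rintro y ⟨g, -, rfl⟩
  exact ⟨g, rfl⟩

variable {n : ℕ} {C : Subgroup G} {Y : Fin n → CMCurve G GF}

/-- the box through the point `y` -/
def box (Y : Fin n → CMCurve G GF) (U : Fin n → Subgroup G) (y : Special Y) : Set (Special Y) :=
  {z | ∀ j, z j ∈ orb GF (U j) (y j)}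

/-- a product of group elements, each moving only one coordinate -/
lemma box_subset (hF : ∀ j, CMFacts C (Y j)) (y : Special Y) (U : Fin n → Subgroup G)
    (hU : ∀ j, ∀ g ∈ U j, g ∈ C ∧ ∀ k, k ≠ j → g ∈ (Y k).H (y k)) :
    box Y U y ⊆ orb GF ⊤ y := by
  classical
  intro z hz
  choose g hg1 hg2 using hz
  -- move the coordinates in `T`
  have key : ∀ T : Finset (Fin n), ∃ h : GF, ∀ j, h • y j = if j ∈ T then z j else y j := by
    intro T
    induction T using Finset.induction_on with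
    | empty => exact ⟨1, fun j => by simp⟩
    | insert k T hk ih =>
      obtain ⟨h, hh⟩ := ih
      refine ⟨g k * h, fun j => ?_⟩
      rw [mul_smul, hh j]
      by_cases hjk : j = k
      · subst hjk
        rw [if_neg hk, if_pos (Finset.mem_insert_self j T), hg2]
      · have h1 : ((g k : GF) : G) ∈ (Y j).H (y j) := (hU k (g k) (hg1 k)).2 j hjk
        by_cases hjT : j ∈ T
        · rw [if_pos hjT, if_pos (Finset.mem_insert_of_mem hjT)]
          refine (hF j).fixed _ _ ?_
          rw [← hg2 j, (hF j).H_smul]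
          exact h1
        · rw [if_neg hjT, if_neg (by simp [hjk, hjT])]
          exact (hF j).fixed _ _ h1
  obtain ⟨h, hh⟩ := key Finset.univ
  refine ⟨h, Subgroup.mem_top _, ?_⟩
  funext j
  have := hh j
  simpa using this

/-- products of numbers near given numbers -/
lemma prod_near (b : Fin n → ℝ) (ε : ℝ) (hε : 0 < ε) : ∃ δ : ℝ, 0 < δ ∧
    ∀ a : Fin n → ℝ, (∀ j, |a j - b j| ≤ δ) → |∏ j, a j - ∏ j, b j| ≤ ε := by
  have hc : Continuous fun a : Fin n → ℝ => ∏ j, a j := by fun_prop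
  obtain ⟨δ, hδ, h⟩ := Metric.continuous_iff.mp hc b ε hε
  refine ⟨δ / 2, half_pos hδ, fun a ha => ?_⟩
  have h1 : dist a b < δ := by
    refine lt_of_le_of_lt ((dist_pi_le_iff (half_pos hδ).le).mpr fun j => ?_) (half_lt_self hδ)
    rw [Real.dist_eq]; exact ha j
  have h2 := h a h1
  rw [Real.dist_eq] at h2
  exact h2.le

/-- the discriminants tend to infinity -/
lemma disc_tendsto (hF : ∀ j, CMFacts C (Y j)) (x : ℕ → Special Y)
    (hx : NoConstantCoordinate Y x) (B : ℕ) : ∀ᶠ i in atTop, ∀ j, B ≤ (Y j).disc (x i j) := by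
  rw [eventually_all]
  intro j
  have h1 : {i | (Y j).disc (x i j) ≤ B}.Finite := by
    have h2 : {i | (Y j).disc (x i j) ≤ B} ⊆
        ⋃ p ∈ {p | (Y j).disc p ≤ B}, {i | x i j = p} := by
      intro i hi
      simp only [Set.mem_iUnion]
      exact ⟨x i j, hi, rfl⟩
    exact (Set.Finite.biUnion ((hF j).finite_disc B) fun p _ => hx j p).subset h2
  rw [← Nat.cofinite_eq_atTop]
  filter_upwards [h1.compl_mem_cofinite] with i hi
  by_contra h
  exact hi (Set.mem_ofPred.mpr (not_le.mp h).le)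

/-- the index condition -/
lemma index_small (hF : ∀ j, CMFacts C (Y j)) (hCn : C.Normal) (hCi : C.index ≠ 0)
    (x : ℕ → Special Y) (hx : NoConstantCoordinate Y x) (hA : AlmostDisjoint Y x)
    (η : ℝ) (hη : 0 < η) : ∀ᶠ i in atTop, ∀ j,
    ((moveOnly C (fun k => (Y k).K (x i k)) (fun k => (Y k).H (x i k)) j ⊔
      (Y j).H (x i j)).relIndex ((Y j).K (x i j)) : ℝ) ≤ ((Y j).disc (x i j) : ℝ) ^ η := by
  have hη3 : 0 < η / 3 := by positivity
  choose B hB using fun j => (hF j).genus n (η / 3) hη3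
  obtain ⟨B', hB'⟩ : ∃ B' : ℕ, ∀ m : ℕ, B' ≤ m →
      ((C.index * 2 ^ n : ℕ) : ℝ) ≤ (m : ℝ) ^ (η / 3) := by
    have h1 : Tendsto (fun m : ℕ => (m : ℝ) ^ (η / 3)) atTop atTop :=
      (tendsto_rpow_atTop hη3).comp tendsto_natCast_atTop_atTop
    exact eventually_atTop.mp (h1.eventually_ge_atTop _)
  have hd := disc_tendsto hF x hx ((∑ j, B j) + B' + 1)
  filter_upwards [hd, hA (η / 3) hη3] with i hi hAi j
  have h1 := hi j
  have h2 : B j ≤ (Y j).disc (x i j) :=
    (Finset.single_le_sum (fun k _ => Nat.zero_le (B k)) (Finset.mem_univ j)).trans (by omega)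
  have h3 : B' ≤ (Y j).disc (x i j) := by omega
  have h4 : (0 : ℝ) < ((Y j).disc (x i j) : ℝ) := by
    have : 0 < (Y j).disc (x i j) := by omega
    exact_mod_cast this
  have h5 := index_bound C hCn hCi (fun k => (Y k).K (x i k)) (fun k => (Y k).H (x i k))
    (fun k => (hF k).dihedral (x i k)) j ((hF j).finite_index (x i j))
  rw [Fintype.card_fin] at h5
  calc ((moveOnly C (fun k => (Y k).K (x i k)) (fun k => (Y k).H (x i k)) j ⊔
      (Y j).H (x i j)).relIndex ((Y j).K (x i j)) : ℝ)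
      ≤ (torsion ((Y j).K (x i j)) ((Y j).H (x i j)) (2 ^ n) : ℝ) * ((C.index * 2 ^ n : ℕ) : ℝ) *
        ((sameField (fun k => (Y k).K (x i k)) (fun k => (Y k).H (x i k)) j ⊔
          (Y j).H (x i j)).relIndex ((Y j).K (x i j)) : ℝ) := by exact_mod_cast h5
    _ ≤ ((Y j).disc (x i j) : ℝ) ^ (η / 3) * ((Y j).disc (x i j) : ℝ) ^ (η / 3) *
        ((Y j).disc (x i j) : ℝ) ^ (η / 3) := by
      refine mul_le_mul (mul_le_mul (hB j _ h2) (hB' _ h3) (by positivity) (by positivity))
        (hAi j) (by positivity) (by positivity)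
    _ = ((Y j).disc (x i j) : ℝ) ^ η := by
      rw [← Real.rpow_add h4, ← Real.rpow_add h4]
      congr 1; ring

lemma orb_fin (hF : ∀ j, CMFacts C (Y j)) (y : Special Y) (U : Subgroup G) :
    (orb GF U y).Finite := by
  refine orb_finite (⨅ j, (Y j).H (y j))
    (Subgroup.finiteIndex_iInf fun j => (hF j).finite_index (y j)) y (fun g hg => ?_) U
  rw [Subgroup.mem_iInf] at hg
  funext j
  exact (hF j).fixed (y j) g (hg j)

lemma exists_small (e : Fin n → ℝ) (he : ∀ j, 0 < e j) : ∃ η : ℝ, 0 < η ∧ ∀ j, η ≤ e j := by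
  have h : ∀ᶠ η in 𝓝[>] (0 : ℝ), ∀ j, η ≤ e j := by
    rw [eventually_all]
    intro j
    filter_upwards [Ioc_mem_nhdsGT (he j)] with η hη
    exact hη.2
  obtain ⟨η, h1, h2⟩ := (h.and self_mem_nhdsWithin).exists
  exact ⟨η, h2, h1⟩

/-- product test functions -/
lemma prod_case (hF : ∀ j, CMFacts C (Y j)) (hCn : C.Normal) (hCi : C.index ≠ 0)
    (x : ℕ → Special Y) (hx : NoConstantCoordinate Y x) (hA : AlmostDisjoint Y x)
    (φ : ∀ j, (Y j).Y → ℝ) (hφ : ∀ j, Continuous (φ j) ∧ HasCompactSupport (φ j))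
    (ε : ℝ) (hε : 0 < ε) : ∀ᶠ i in atTop,
    |avg (orb GF ⊤ (x i)) (fun y => ∏ j, φ j ((Y j).val (y j))) - ∏ j, ∫ y, φ j y ∂(Y j).m| ≤ ε := by
  choose e he hduke using fun j => (hF j).duke
  obtain ⟨η, hη, hηe⟩ := exists_small e he
  obtain ⟨δ, hδ, hprod⟩ := prod_near (fun j => ∫ y, φ j y ∂(Y j).m) ε hε
  choose B hB using fun j => hduke j (φ j) (hφ j).1 (hφ j).2 δ hδ
  filter_upwards [disc_tendsto hF x hx ((∑ j, B j) + 1), index_small hF hCn hCi x hx hA η hη]
    with i hi hidx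
  set U : Fin n → Subgroup G :=
    fun j => moveOnly C (fun k => (Y k).K (x i k)) (fun k => (Y k).H (x i k)) j with hU
  have hconj : ∀ y ∈ orb GF ⊤ (x i), ∀ j, (Y j).K (y j) = (Y j).K (x i j) ∧
      (Y j).H (y j) = (Y j).H (x i j) ∧ (Y j).disc (y j) = (Y j).disc (x i j) := by
    rintro y ⟨g, -, rfl⟩ j
    exact ⟨(hF j).K_smul g _, (hF j).H_smul g _, (hF j).disc_smul g _⟩
  refine avg_partition (orb_fin hF (x i) ⊤) ⟨x i, self_mem_orb _ _⟩ (box Y U) ?_ ?_ ?_ _ _ _ ?_
  · intro y hy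
    rw [← orb_eq hy]
    refine box_subset hF y U fun j g hg => ?_
    obtain ⟨h1, h2⟩ := mem_moveOnly.mp hg
    exact ⟨h1.1, fun k hk => by rw [(hconj y hy k).2.1]; exact h2 k hk⟩
  · intro y _ j
    exact self_mem_orb _ _
  · intro y _ z hz
    unfold box
    ext w
    exact forall_congr' fun j => by rw [orb_eq (hz j)]
  · intro y hy
    have hbox : avg (box Y U y) (fun z => ∏ j, φ j ((Y j).val (z j))) =
        ∏ j, avg (orb GF (U j) (y j)) (fun p => φ j ((Y j).val p)) := by
      refine avg_box (fun j => orb GF (U j) (y j)) (fun j => ?_)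
        (fun j p => φ j ((Y j).val p))
      exact orb_finite _ ((hF j).finite_index (y j)) (y j) ((hF j).fixed (y j)) (U j)
    rw [hbox]
    refine hprod _ fun j => ?_
    obtain ⟨c1, c2, c3⟩ := hconj y hy j
    have h1 := hi j
    have h2 : B j ≤ (Y j).disc (y j) := by
      rw [c3]
      exact (Finset.single_le_sum (fun k _ => Nat.zero_le (B k)) (Finset.mem_univ j)).trans
        (by omega)
    refine hB j (y j) h2 (U j) (fun g hg => (mem_moveOnly.mp hg).1.1) (fun g hg => ?_) ?_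
    · rw [c1]; exact (mem_moveOnly.mp hg).1.2 j
    · rw [c1, c2, c3]
      refine (hidx j).trans (Real.rpow_le_rpow_of_exponent_le ?_ (hηe j))
      have : 1 ≤ (Y j).disc (x i j) := by omega
      exact_mod_cast this

lemma avg_sub_le {α : Type*} {S : Set α} (hS : S.Finite) (hne : S.Nonempty) (f g : α → ℝ) (ε : ℝ)
    (h : ∀ a, |f a - g a| ≤ ε) : |avg S f - avg S g| ≤ ε := by
  have hT0 : (0 : ℝ) < hS.toFinset.card := by
    have : hS.toFinset.Nonempty := by simpa using hne
    exact_mod_cast this.card_pos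
  rw [avg_eq hS, avg_eq hS, ← sub_div, ← Finset.sum_sub_distrib, abs_div, abs_of_pos hT0,
    div_le_iff₀ hT0]
  refine (Finset.abs_sum_le_sum_abs _ _).trans ?_
  calc ∑ y ∈ hS.toFinset, |f y - g y| ≤ ∑ _y ∈ hS.toFinset, ε :=
        Finset.sum_le_sum fun y _ => h y
    _ = ε * hS.toFinset.card := by rw [Finset.sum_const, nsmul_eq_mul, mul_comm]

lemma avg_lin {α : Type*} {S : Set α} (hS : S.Finite) {ι : Type} [Fintype ι] (c : ι → ℝ)
    (f : ι → α → ℝ) : avg S (fun y => ∑ a, c a * f a y) = ∑ a, c a * avg S (f a) := by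
  simp_rw [avg_eq hS]
  rw [Finset.sum_comm, Finset.sum_div]
  refine Finset.sum_congr rfl fun a _ => ?_
  rw [← Finset.mul_sum, mul_div_assoc]

/-- the main theorem -/
theorem equidistributed (hF : ∀ j, CMFacts C (Y j)) (hCn : C.Normal) (hCi : C.index ≠ 0)
    (x : ℕ → Special Y) (hx : NoConstantCoordinate Y x) (hA : AlmostDisjoint Y x) :
    Equidistributed Y x := by
  intro f hf hc
  rw [Metric.tendsto_atTop']
  intro ε hε
  obtain ⟨ι, i1, c, g, hg, hfg⟩ := dens f hf hc (ε / 4) (by positivity)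
  have hint : ∀ a, Integrable (fun y : (∀ j, (Y j).Y) => ∏ j, g a j (y j))
      (Measure.pi fun j => (Y j).m) := fun a =>
    Integrable.fintype_prod_dep fun j => (hg a j).1.integrable_of_hasCompactSupport (hg a j).2
  have hfint : Integrable f (Measure.pi fun j => (Y j).m) := hf.integrable_of_hasCompactSupport hc
  have hI : |∫ y, f y ∂(Measure.pi fun j => (Y j).m) -
      ∑ a, c a * ∏ j, ∫ y, g a j y ∂(Y j).m| ≤ ε / 4 := by
    have e1 : ∑ a, c a * ∏ j, ∫ y, g a j y ∂(Y j).m =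
        ∫ y, ∑ a, c a * ∏ j, g a j (y j) ∂(Measure.pi fun j => (Y j).m) := by
      rw [integral_finset_sum _ fun a _ => (hint a).const_mul (c a)]
      refine Finset.sum_congr rfl fun a _ => ?_
      rw [integral_const_mul, integral_fintype_prod_eq_prod]
    rw [e1, ← integral_sub hfint (integrable_finset_sum _ fun a _ => (hint a).const_mul (c a))]
    rw [← Real.norm_eq_abs]
    refine (norm_integral_le_of_norm_le_const (C := ε / 4)
      (Filter.Eventually.of_forall fun y => ?_)).trans ?_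
    · rw [Real.norm_eq_abs]; exact hfg y
    · simp
  have hev : Tendsto (fun i => ∑ a, c a * avg (orb GF ⊤ (x i))
      (fun y => ∏ j, g a j ((Y j).val (y j)))) atTop
      (𝓝 (∑ a, c a * ∏ j, ∫ y, g a j y ∂(Y j).m)) := by
    refine tendsto_finset_sum _ fun a _ => Tendsto.const_mul _ ?_
    rw [Metric.tendsto_atTop']
    intro δ hδ
    obtain ⟨N, hN⟩ := eventually_atTop.mp
      (prod_case hF hCn hCi x hx hA (g a) (hg a) (δ / 2) (half_pos hδ))
    refine ⟨N, fun i hi => ?_⟩
    rw [Real.dist_eq]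
    exact lt_of_le_of_lt (hN i hi.le) (half_lt_self hδ)
  obtain ⟨N, hN⟩ := (Metric.tendsto_atTop'.mp hev) (ε / 4) (by positivity)
  refine ⟨N, fun i hi => ?_⟩
  have h1 := hN i hi
  have hS := orb_fin hF (x i) ⊤
  have h2 := avg_sub_le hS ⟨x i, self_mem_orb _ _⟩ (fun y => f fun j => (Y j).val (y j))
    (fun y => ∑ a, c a * ∏ j, g a j ((Y j).val (y j))) (ε / 4) (fun y => hfg _)
  rw [avg_lin hS c fun a y => ∏ j, g a j ((Y j).val (y j))] at h2
  rw [Real.dist_eq] at h1 ⊢
  rw [abs_le] at h2 hI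
  rw [abs_lt] at h1 ⊢
  constructor <;> linarith [h1.1, h1.2, h2.1, h2.2, hI.1, hI.2]

end Pool.Agent.Q28.EQ
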